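import Pool.Agent.Lib.MP_48b749_nt.Odd.Defs
import Pool.Agent.Lib.MP_48b749_nt.Infty

/-!
MP_48b749_nt, a positive proportion of all elliptic curves over `k(t)` has trivial `2`-Selmer
group. Definitions: the cubic algebra `Cu A B = S[θ]`, `θ ^ 3 = - A θ - B`, its norm, Gram
matrices, henselian discretely valued fields with finite residue field of odd characteristic,
isotropy of ternary forms, good and normal bases, detection of a class at a prime.
-/

set_option autoImplicit false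

open Polynomial

namespace Pool.Agent.BSDP

/-! ### The cubic algebra -/

/-- The algebra `S[θ]`, `θ ^ 3 = - A θ - B`; `(x, y, z)` is `x + y θ + z θ ^ 2`. -/
@[ext] structure Cu {S : Type} (A B : S) where
  /-- the coefficient of `1` -/
  x : S
  /-- the coefficient of `θ` -/
  y : S
  /-- the coefficient of `θ ^ 2` -/
  z : S

namespace Cu

variable {S : Type} [CommRing S] {A B : S}

instance : Zero (Cu A B) := ⟨⟨0, 0, 0⟩⟩
instance : One (Cu A B) := ⟨⟨1, 0, 0⟩⟩
instance : Add (Cu A B) := ⟨fun u v => ⟨u.x + v.x, u.y + v.y, u.z + v.z⟩⟩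
instance : Neg (Cu A B) := ⟨fun u => ⟨-u.x, -u.y, -u.z⟩⟩
instance : Sub (Cu A B) := ⟨fun u v => ⟨u.x - v.x, u.y - v.y, u.z - v.z⟩⟩
instance : Mul (Cu A B) := ⟨fun u v =>
  ⟨u.x * v.x - B * (u.y * v.z + u.z * v.y),
   u.x * v.y + u.y * v.x - A * (u.y * v.z + u.z * v.y) - B * (u.z * v.z),
   u.x * v.z + u.y * v.y + u.z * v.x - A * (u.z * v.z)⟩⟩
instance : NatCast (Cu A B) := ⟨fun n => ⟨n, 0, 0⟩⟩
instance : IntCast (Cu A B) := ⟨fun n => ⟨n, 0, 0⟩⟩
instance : SMul S (Cu A B) := ⟨fun s u => ⟨s * u.x, s * u.y, s * u.z⟩⟩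

@[simp] lemma zero_x : (0 : Cu A B).x = 0 := rfl
@[simp] lemma zero_y : (0 : Cu A B).y = 0 := rfl
@[simp] lemma zero_z : (0 : Cu A B).z = 0 := rfl
@[simp] lemma one_x : (1 : Cu A B).x = 1 := rfl
@[simp] lemma one_y : (1 : Cu A B).y = 0 := rfl
@[simp] lemma one_z : (1 : Cu A B).z = 0 := rfl
@[simp] lemma add_x (u v : Cu A B) : (u + v).x = u.x + v.x := rfl
@[simp] lemma add_y (u v : Cu A B) : (u + v).y = u.y + v.y := rfl
@[simp] lemma add_z (u v : Cu A B) : (u + v).z = u.z + v.z := rfl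
@[simp] lemma neg_x (u : Cu A B) : (-u).x = -u.x := rfl
@[simp] lemma neg_y (u : Cu A B) : (-u).y = -u.y := rfl
@[simp] lemma neg_z (u : Cu A B) : (-u).z = -u.z := rfl
@[simp] lemma sub_x (u v : Cu A B) : (u - v).x = u.x - v.x := rfl
@[simp] lemma sub_y (u v : Cu A B) : (u - v).y = u.y - v.y := rfl
@[simp] lemma sub_z (u v : Cu A B) : (u - v).z = u.z - v.z := rfl
lemma mul_x (u v : Cu A B) : (u * v).x = u.x * v.x - B * (u.y * v.z + u.z * v.y) := rfl
lemma mul_y (u v : Cu A B) : (u * v).y =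
    u.x * v.y + u.y * v.x - A * (u.y * v.z + u.z * v.y) - B * (u.z * v.z) := rfl
lemma mul_z (u v : Cu A B) : (u * v).z =
    u.x * v.z + u.y * v.y + u.z * v.x - A * (u.z * v.z) := rfl
@[simp] lemma smul_x (s : S) (u : Cu A B) : (s • u).x = s * u.x := rfl
@[simp] lemma smul_y (s : S) (u : Cu A B) : (s • u).y = s * u.y := rfl
@[simp] lemma smul_z (s : S) (u : Cu A B) : (s • u).z = s * u.z := rfl

lemma natCast_x (n : ℕ) : (NatCast.natCast n : Cu A B).x = n := rfl
lemma natCast_y (n : ℕ) : (NatCast.natCast n : Cu A B).y = 0 := rfl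
lemma natCast_z (n : ℕ) : (NatCast.natCast n : Cu A B).z = 0 := rfl
lemma intCast_x (n : ℤ) : (IntCast.intCast n : Cu A B).x = n := rfl
lemma intCast_y (n : ℤ) : (IntCast.intCast n : Cu A B).y = 0 := rfl
lemma intCast_z (n : ℤ) : (IntCast.intCast n : Cu A B).z = 0 := rfl

instance instCommRing : CommRing (Cu A B) where
  add_assoc _ _ _ := by ext <;> simp <;> ring
  zero_add _ := by ext <;> simp
  add_zero _ := by ext <;> simp
  add_comm _ _ := by ext <;> simp <;> ring
  left_distrib _ _ _ := by ext <;> simp [mul_x, mul_y, mul_z] <;> ring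
  right_distrib _ _ _ := by ext <;> simp [mul_x, mul_y, mul_z] <;> ring
  zero_mul _ := by ext <;> simp [mul_x, mul_y, mul_z]
  mul_zero _ := by ext <;> simp [mul_x, mul_y, mul_z]
  mul_assoc _ _ _ := by ext <;> simp [mul_x, mul_y, mul_z] <;> ring
  one_mul _ := by ext <;> simp [mul_x, mul_y, mul_z]
  mul_one _ := by ext <;> simp [mul_x, mul_y, mul_z]
  mul_comm _ _ := by ext <;> simp [mul_x, mul_y, mul_z] <;> ring
  neg_add_cancel _ := by ext <;> simp
  sub_eq_add_neg _ _ := by ext <;> simp <;> ring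
  nsmul := nsmulRec
  zsmul := zsmulRec
  natCast_zero := by ext <;> simp only [natCast_x, natCast_y, natCast_z] <;> simp
  natCast_succ n := by
    ext <;> simp only [natCast_x, natCast_y, natCast_z, add_x, add_y, add_z] <;> simp
  intCast_ofNat n := by
    ext
    · exact Int.cast_natCast n
    · rfl
    · rfl
  intCast_negSucc n := by
    ext
    · exact Int.cast_negSucc n
    · exact neg_zero.symm
    · exact neg_zero.symm

/-- the constants -/
def of (A B : S) : S →+* Cu A B where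
  toFun s := ⟨s, 0, 0⟩
  map_one' := rfl
  map_mul' _ _ := by ext <;> simp [mul_x, mul_y, mul_z]
  map_zero' := rfl
  map_add' _ _ := by ext <;> simp

instance instAlgebra : Algebra S (Cu A B) where
  algebraMap := of A B
  commutes' _ _ := mul_comm _ _
  smul_def' s u := by ext <;> simp [of, mul_x, mul_y, mul_z]

@[simp] lemma algebraMap_x (s : S) : (algebraMap S (Cu A B) s).x = s := rfl
@[simp] lemma algebraMap_y (s : S) : (algebraMap S (Cu A B) s).y = 0 := rfl
@[simp] lemma algebraMap_z (s : S) : (algebraMap S (Cu A B) s).z = 0 := rfl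

/-- the generator `θ` -/
def th (A B : S) : Cu A B := ⟨0, 1, 0⟩

@[simp] lemma th_x : (th A B).x = 0 := rfl
@[simp] lemma th_y : (th A B).y = 1 := rfl
@[simp] lemma th_z : (th A B).z = 0 := rfl

/-- `s - d θ` -/
def lin (A B : S) (s d : S) : Cu A B := ⟨s, -d, 0⟩

/-- The norm from `S[θ]` to `S`. -/
def norm (u : Cu A B) : S :=
  u.x ^ 3 - B * u.y ^ 3 + B ^ 2 * u.z ^ 3 - 2 * A * u.x ^ 2 * u.z + A ^ 2 * u.x * u.z ^ 2 +
    A * u.x * u.y ^ 2 + 3 * B * u.x * u.y * u.z - A * B * u.y * u.z ^ 2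

/-- The adjugate: `u * adj u = norm u`. -/
def adj (u : Cu A B) : Cu A B :=
  ⟨(u.x - A * u.z) ^ 2 + u.y * (A * u.y + B * u.z),
   -(u.y * (u.x - A * u.z)) - B * u.z ^ 2 - A * u.y * u.z,
   u.y ^ 2 - u.z * (u.x - A * u.z)⟩

/-- The value of `u` at a root `r` of `X ^ 3 + A X + B`. -/
def ev (r : S) (u : Cu A B) : S := u.x + u.y * r + u.z * r ^ 2

/-- Extension of scalars. -/
def map {T : Type} [CommRing T] (φ : S →+* T) : Cu A B →+* Cu (φ A) (φ B) where
  toFun u := ⟨φ u.x, φ u.y, φ u.z⟩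
  map_one' := by ext <;> simp
  map_mul' _ _ := by ext <;> simp [mul_x, mul_y, mul_z]
  map_zero' := by ext <;> simp
  map_add' _ _ := by ext <;> simp

@[simp] lemma map_x {T : Type} [CommRing T] (φ : S →+* T) (u : Cu A B) :
    (map φ u).x = φ u.x := rfl
@[simp] lemma map_y {T : Type} [CommRing T] (φ : S →+* T) (u : Cu A B) :
    (map φ u).y = φ u.y := rfl
@[simp] lemma map_z {T : Type} [CommRing T] (φ : S →+* T) (u : Cu A B) :
    (map φ u).z = φ u.z := rfl

theorem mul_adj (u : Cu A B) : u * u.adj = algebraMap S (Cu A B) u.norm := by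
  ext <;> simp only [mul_x, mul_y, mul_z, adj, norm, algebraMap_x, algebraMap_y, algebraMap_z] <;>
    ring

theorem norm_mul (u v : Cu A B) : (u * v).norm = u.norm * v.norm := by
  simp only [mul_x, mul_y, mul_z, norm]; ring

@[simp] theorem norm_one : (1 : Cu A B).norm = 1 := by simp [norm]
@[simp] theorem norm_zero : (0 : Cu A B).norm = 0 := by simp [norm]

theorem norm_algebraMap (s : S) : (algebraMap S (Cu A B) s).norm = s ^ 3 := by simp [norm]

theorem norm_map {T : Type} [CommRing T] (φ : S →+* T) (u : Cu A B) :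
    (map φ u).norm = φ u.norm := by
  simp [norm, map_ofNat]

theorem norm_lin (s d : S) : (lin A B s d).norm = s ^ 3 + A * d ^ 2 * s + B * d ^ 3 := by
  simp only [lin, norm]; ring

end Cu

/-! ### Gram matrices, good and normal bases -/

/-- Gram matrix of `(λ, μ) ↦ c₂ (γ λ μ)` -/
def gram1 {S : Type} [CommRing S] {A B : S} (γ : Cu A B) (b : Fin 3 → Cu A B) :
    Matrix (Fin 3) (Fin 3) S := Matrix.of fun i j => (γ * b i * b j).z

/-- Gram matrix of `(λ, μ) ↦ c₂ (θ γ λ μ) = c₁ (γ λ μ)` -/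
def gram2 {S : Type} [CommRing S] {A B : S} (γ : Cu A B) (b : Fin 3 → Cu A B) :
    Matrix (Fin 3) (Fin 3) S := Matrix.of fun i j => (γ * b i * b j).y

/-- coordinates of a basis -/
def coord {S : Type} [CommRing S] {A B : S} (b : Fin 3 → Cu A B) : Matrix (Fin 3) (Fin 3) S :=
  !![(b 0).x, (b 0).y, (b 0).z; (b 1).x, (b 1).y, (b 1).z; (b 2).x, (b 2).y, (b 2).z]

/-- change of basis -/
def chb {S : Type} [CommRing S] {A B : S} (M : Matrix (Fin 3) (Fin 3) S) (b : Fin 3 → Cu A B) :
    Fin 3 → Cu A B := fun i => M i 0 • b 0 + M i 1 • b 1 + M i 2 • b 2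

/-- the standard basis `1, θ, θ ^ 2` -/
def std {S : Type} [CommRing S] (A B : S) : Fin 3 → Cu A B := ![⟨1, 0, 0⟩, ⟨0, 1, 0⟩, ⟨0, 0, 1⟩]

/-- `b` is a good basis for `γ` over the subring `R`: both Gram matrices have entries in `R` and the
determinant of the first one is a unit of `R`. -/
structure Good {F : Type} [Field F] (R : Subring F) {A B : F} (γ : Cu A B) (b : Fin 3 → Cu A B) :
    Prop where
  /-- first Gram matrix -/
  g1 : ∀ i j, gram1 γ b i j ∈ R
  /-- second Gram matrix -/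
  g2 : ∀ i j, gram2 γ b i j ∈ R
  /-- unimodular -/
  unit : ∃ u ∈ R, u * (gram1 γ b).det = 1

/-- The antidiagonal matrix. -/
def G0 (S : Type) [CommRing S] : Matrix (Fin 3) (Fin 3) S := !![0, 0, 1; 0, 1, 0; 1, 0, 0]

/-- A quintuple `(a, b, c, d, e)`, the symmetric matrix `[[a, b, c], [b, -2c, d], [c, d, e]]`. -/
@[ext] structure Quin (S : Type) where
  /-- entry `11` -/
  a : S
  /-- entry `12` -/
  b : S
  /-- entry `13` -/
  c : S
  /-- entry `23` -/
  d : S
  /-- entry `33` -/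
  e : S

namespace Quin

variable {S : Type} [CommRing S]

/-- the symmetric matrix of trace zero of a quintuple -/
def mat (t : Quin S) : Matrix (Fin 3) (Fin 3) S :=
  !![t.a, t.b, t.c; t.b, -2 * t.c, t.d; t.c, t.d, t.e]

/-- the invariant `A` -/
def invA (t : Quin S) : S := -(3 * t.c ^ 2 + 2 * t.b * t.d + t.a * t.e)

/-- the invariant `B` -/
def invB (t : Quin S) : S :=
  2 * t.c ^ 3 + 2 * t.b * t.c * t.d - 2 * t.a * t.c * t.e - t.a * t.d ^ 2 - t.b ^ 2 * t.e

/-- extension of scalars -/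
def map {T : Type} [CommRing T] (φ : S →+* T) (t : Quin S) : Quin T :=
  ⟨φ t.a, φ t.b, φ t.c, φ t.d, φ t.e⟩

/-- action of the unipotent element `h`; `i` is the inverse of `2` -/
def act (i h : S) (t : Quin S) : Quin S :=
  ⟨t.a, t.b + h * t.a, t.c - h * t.b - i * h ^ 2 * t.a,
    t.d + 3 * h * t.c - 3 * i * h ^ 2 * t.b - i * h ^ 3 * t.a,
    t.e - 2 * h * t.d - 3 * h ^ 2 * t.c + h ^ 3 * t.b + i ^ 2 * h ^ 4 * t.a⟩

/-- A quintuple over a field is *detected*: the pencil has just one eigenvalue `s` in the field,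
and `G0 (n, n) (3 s ^ 2 + A)` is not a square for an eigenvector `n = (n₁, n₂, n₃)`. (For a finite
field of odd characteristic this means that the binary quartic of `t` is irreducible.) -/
def Det {F : Type} [Field F] (t : Quin F) : Prop :=
  ∃ s n₁ n₂ n₃ : F,
    t.a * n₁ + t.b * n₂ + t.c * n₃ = s * n₃ ∧
    t.b * n₁ + (-2 * t.c) * n₂ + t.d * n₃ = s * n₂ ∧
    t.c * n₁ + t.d * n₂ + t.e * n₃ = s * n₁ ∧
    ¬ IsSquare (-(3 * s ^ 2 + 4 * t.invA)) ∧
    ¬ IsSquare ((2 * n₁ * n₃ + n₂ ^ 2) * (3 * s ^ 2 + t.invA))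

end Quin

/-- `b` is a normal basis for `γ` with quintuple `t` -/
structure Normal {F : Type} [Field F] {A B : F} (γ : Cu A B) (b : Fin 3 → Cu A B) (t : Quin F) :
    Prop where
  /-- first Gram matrix -/
  g1 : gram1 γ b = G0 F
  /-- second Gram matrix -/
  g2 : gram2 γ b = t.mat

/-! ### Isotropy and local fields -/

/-- The ternary quadratic form with symmetric matrix `G` has a nontrivial zero. -/
def Isotropic {F : Type} [Field F] (G : Matrix (Fin 3) (Fin 3) F) : Prop :=
  ∃ v : Fin 3 → F, v ≠ 0 ∧ dotProduct v (G.mulVec v) = 0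

/-- The form `λ ↦ c₂ (η λ ^ 2)` has a nontrivial zero. -/
def Iso {F : Type} [Field F] {A B : F} (η : Cu A B) : Prop :=
  ∃ u : Cu A B, u ≠ 0 ∧ (η * u * u).z = 0

/-- A henselian discretely valued field with finite residue field of characteristic `≠ 2`. -/
structure Loc (F : Type) [Field F] where
  /-- the valuation ring -/
  O : ValuationSubring F
  /-- a uniformizer -/
  pi : F
  pi_ne : pi ≠ 0
  /-- it generates the maximal ideal -/
  pi_gen : ∀ x : F, O.valuation x < 1 ↔ ∃ y ∈ O, x = pi * y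
  /-- the value group is generated by the value of the uniformizer -/
  exists_zpow : ∀ x : F, x ≠ 0 → ∃ (n : ℤ) (u : F), O.valuation u = 1 ∧ x = pi ^ n * u
  /-- Hensel's lemma -/
  hens : HenselianLocalRing O
  /-- odd residue characteristic -/
  two : O.valuation 2 = 1
  /-- finite residue field -/
  fin : Finite (IsLocalRing.ResidueField O)

/-- `γ` is a unit of `O[θ]` up to squares -/
def UnitAt {F : Type} [Field F] (L : Loc F) {A B : F} (γ : Cu A B) : Prop :=
  ∃ ε κ : Cu A B, γ = ε * κ * κ ∧ κ.norm ≠ 0 ∧ ε.x ∈ L.O ∧ ε.y ∈ L.O ∧ ε.z ∈ L.O ∧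
    L.O.valuation ε.norm = 1

/-- `ξ` is the only root of `X ^ 3 + A X + B` modulo the maximal ideal, a simple root -/
structure RootAt {F : Type} [Field F] (L : Loc F) (A B ξ : F) : Prop where
  mem : ξ ∈ L.O
  root : ξ ^ 3 + A * ξ + B = 0
  u1 : L.O.valuation (3 * ξ ^ 2 + A) = 1
  u2 : L.O.valuation (3 * ξ ^ 2 + 4 * A) = 1
  ns : ¬ IsSquare (-(3 * ξ ^ 2 + 4 * A))

/-- `γ = D (x - θ)` up to squares with `x` congruent to `ξ` and `D (x ^ 3 + A x + B)` a square -/
def RamAt {F : Type} [Field F] (L : Loc F) (D ξ : F) {A B : F} (γ : Cu A B) : Prop :=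
  ∃ (x s : F) (κ : Cu A B), x ∈ L.O ∧ L.O.valuation (x - ξ) < 1 ∧ s ≠ 0 ∧
    D * (x ^ 3 + A * x + B) = s ^ 2 ∧ κ.norm ≠ 0 ∧
    γ = algebraMap F (Cu A B) D * Cu.lin A B x 1 * κ * κ

/-- The local condition for the twist by `D`: `γ` is a square, or it is `x - D θ` modulo squares for
a point `(x, y)`, `y ≠ 0`, of `y ^ 2 = x ^ 3 + A D ^ 2 x + B D ^ 3`. -/
def SelF {F : Type} [Field F] (D : F) {A B : F} (γ : Cu A B) : Prop :=
  IsSquare γ ∨ ∃ x y : F, y ≠ 0 ∧ y ^ 2 = x ^ 3 + A * D ^ 2 * x + B * D ^ 3 ∧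
    IsSquare (γ * Cu.lin A B x D)

/-- The subring of polynomials of `k(t)`. -/
noncomputable def polys (k : Type) [Field k] : Subring (RatFunc k) :=
  (algebraMap k[X] (RatFunc k)).range

/-! ### Global notions over `k(t)` -/

section global

variable {k : Type} [Field k]

/-- `k[t] → k(t)` -/
noncomputable abbrev cc (p : k[X]) : RatFunc k := algebraMap k[X] (RatFunc k) p

/-- The cubic algebra of `E : y ^ 2 = x ^ 3 + A x + B` over `k(t)`. -/
abbrev LK (A B : k[X]) : Type := Cu (cc A) (cc B)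

/-- `γ` has square norm and a good basis over `k[t]` (this is the `2`-Selmer condition for the
curves considered below). -/
def InU {A B : k[X]} (γ : LK A B) : Prop :=
  (∃ n : RatFunc k, n ≠ 0 ∧ γ.norm = n ^ 2) ∧ ∃ b, Good (polys k) γ b

/-- `γ` is detected at the prime `π`: it has a normal basis over `k[t]` whose quintuple is detected
modulo `π`. -/
def DetG {A B : k[X]} (π : k[X]) [Fact (Irreducible π)] (γ : LK A B) : Prop :=
  ∃ (b : Fin 3 → LK A B) (t : Quin k[X]),
    Normal γ b (t.map (algebraMap k[X] (RatFunc k))) ∧ (t.map (AdjoinRoot.mk π)).Det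

/-- The family: `A = a t ^ (4 m) + lower`, `B = b t ^ (6 m) + lower`, `4 A ^ 3 + 27 B ^ 2`
squarefree. -/
structure Fam (a b : k) (m : ℕ) (A B : k[X]) : Prop where
  degA : A.natDegree ≤ 4 * m
  coeffA : A.coeff (4 * m) = a
  degB : B.natDegree ≤ 6 * m
  coeffB : B.coeff (6 * m) = b
  sqf : Squarefree (4 * A ^ 3 + 27 * B ^ 2)

/-- every class of `U(E)` other than the trivial one is detected at a prime of `V` -/
def AllDet (V : Finset k[X]) (A B : k[X]) : Prop :=
  ∀ γ : LK A B, InU γ → ¬ IsSquare γ → ∃ π ∈ V, ∃ h : Irreducible π,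
    haveI : Fact (Irreducible π) := ⟨h⟩; DetG π γ

/-- The local condition at the closed point `w` for the twist by `D`. -/
def LocSel (D : k[X]) {A B : k[X]} (γ : LK A B) (w : BSDFF.Place k (RatFunc k)) : Prop :=
  SelF (w.toCompletion (cc D)) (Cu.map w.toCompletion γ)

/-- The completion at a closed point of `k(t)` as a local field. -/
structure LocAt (w : BSDFF.Place k (RatFunc k)) extends Loc (w.ring.valuation.Completion) where
  mem_iff : ∀ a : RatFunc k, w.toCompletion a ∈ O ↔ a ∈ w.ring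
  lt_iff : ∀ a : RatFunc k, O.valuation (w.toCompletion a) < 1 ↔ w.ring.valuation a < 1
  dense : ∀ x c : w.ring.valuation.Completion, c ≠ 0 →
    ∃ a : RatFunc k, O.valuation (x - w.toCompletion a) < O.valuation c

/-- the degree at infinity of `x` is at most `n` -/
def DegLE (x : RatFunc k) (n : ℤ) : Prop := x = 0 ∨ x.intDegree ≤ n

/-- the degree of `u` at infinity is at most `n`, where `θ` has degree `2 m` -/
def CuLE (m : ℕ) {A B : RatFunc k} (u : Cu A B) (n : ℤ) : Prop :=
  DegLE u.x n ∧ DegLE u.y (n - 2 * m) ∧ DegLE u.z (n - 4 * m)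

end global

end Pool.Agent.BSDP
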