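import Pool.Agent.Lib.BSDP.Stmt
import Pool.Agent.Lib.BSDP.D.Comp

/-!
MP_48b749_nt, positive proportion: the conclusions for one curve from the triviality of its
`2`-Selmer group.
-/

set_option autoImplicit false

open Polynomial

namespace Pool.Agent.BSDP

theorem curve_disc {K : Type} [Field K] (A B : K) :
    (curve A B).Δ = -16 * (4 * A ^ 3 + 27 * B ^ 2) := by
  simp only [curve, WeierstrassCurve.Δ, WeierstrassCurve.b₂, WeierstrassCurve.b₄,
    WeierstrassCurve.b₆, WeierstrassCurve.b₈]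
  ring

theorem curve_c4 {K : Type} [Field K] (A B : K) : (curve A B).c₄ = -48 * A := by
  simp only [curve, WeierstrassCurve.c₄, WeierstrassCurve.b₂, WeierstrassCurve.b₄]
  ring

variable {k : Type} [Field k]

theorem trivialSelmer_of [Finite k] (h2 : (2 : k) ≠ 0) (h3 : (3 : k) ≠ 0) {A B : k[X]}
    (hD : 4 * A ^ 3 + 27 * B ^ 2 ≠ 0) (hsel : SelTriv A B)
    (hdom : ∀ u : LK A B, u ≠ 0 → u.norm ≠ 0)
    (hj : ∀ c : k, (curve (cc A) (cc B)).c₄ ^ 3 ≠
      algebraMap k (RatFunc k) c * (curve (cc A) (cc B)).Δ) :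
    TrivialSelmer k (cc A) (cc B) := by
  classical
  have hΔ : (curve (cc A) (cc B) : WeierstrassCurve (RatFunc k)).Δ ≠ 0 := by
    rw [curve_disc]
    refine mul_ne_zero ?_ ?_
    · have h : (2 : RatFunc k) ≠ 0 := by
        have := (map_ne_zero (algebraMap k (RatFunc k))).2 h2
        rwa [map_ofNat] at this
      rw [show (-16 : RatFunc k) = -(2 ^ 4) by norm_num]
      exact neg_ne_zero.2 (pow_ne_zero _ h)
    · have h : (cc (4 * A ^ 3 + 27 * B ^ 2) : RatFunc k) ≠ 0 :=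
        (map_ne_zero_iff _ (IsFractionRing.injective k[X] (RatFunc k))).2 hD
      simpa [cc, map_ofNat] using h
  have hell : (⟨0, 0, 0, cc A, cc B⟩ : WeierstrassCurve (RatFunc k)).IsElliptic :=
    ⟨isUnit_iff_ne_zero.2 hΔ⟩
  obtain ⟨hr, hf⟩ := hsel.rank_zero h2 hdom
  refine ⟨hΔ, hj, (selTwoTrivial_iff A B).2 hsel, ?_, hf, hr, ?_⟩
  · intro P
    exact hsel.halves h2 hdom P
  · intro a b c d e hI hJ hels
    exact hsel.quartic h2 h3 hD hdom (locAt h2) hI hJ hels

end Pool.Agent.BSDP
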