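import Pool.Agent.Lib.BSDP.H.Main

/-!
MP_48b749_nt, positive proportion of elliptic curves over `k(t)` with trivial `2`-Selmer group:
definitions of the statement. `Cu A B` is the algebra `K[θ]`, `θ ^ 3 = - A θ - B`, with basis
`1, θ, θ ^ 2` and norm `Cu.norm`; `Place k K` is the set of closed points, `v.toCompletion` the
embedding of `K` in the completion at `v`.
-/

set_option autoImplicit false

open Polynomial

namespace Pool.Agent.BSDP

/-- The curve `E : y ^ 2 = x ^ 3 + A x + B` over `K`. -/
def curve {K : Type} [Field K] (A B : K) : WeierstrassCurve K := ⟨0, 0, 0, A, B⟩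

/-- `x - θ` -/
def xsub {F : Type} [Field F] {A B : F} (x : F) : Cu A B := ⟨x, -1, 0⟩

/-- `γ` is in the image of `E(F) / 2 E(F)` under `(x, y) ↦ x - θ`, `E : y ^ 2 = x ^ 3 + A x + B`:
up to squares it is `1` or `x - θ` for a point `(x, y)` of `E(F)` with `y ≠ 0`. -/
def InImage {F : Type} [Field F] {A B : F} (γ : Cu A B) : Prop :=
  IsSquare γ ∨ ∃ x y : F, y ≠ 0 ∧ y ^ 2 = x ^ 3 + A * x + B ∧ IsSquare (γ * xsub x)

/-- The image of `γ` under the base change `K[θ] → F[θ]` along `φ : K → F`. -/
def base {K F : Type} [Field K] [Field F] (φ : K →+* F) {A B : K} (γ : Cu A B) :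
    Cu (φ A) (φ B) := ⟨φ γ.x, φ γ.y, φ γ.z⟩

/-- The condition `InImage` after the base change `φ : K → F`. -/
def InImageOver {K F : Type} [Field K] [Field F] (φ : K →+* F) {A B : K} (γ : Cu A B) : Prop :=
  InImage (base φ γ)

/-- The `2`-Selmer group of `E : y ^ 2 = x ^ 3 + A x + B` over `K` is trivial:
`H ^ 1 (K, E[2])` is the group of the classes modulo squares of the invertible `γ` of `K[θ]` whose
norm is a square, and every such class which lies in the image of `E(K_v) / 2 E(K_v)` for each
closed point `v` is trivial. -/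
def SelTwoTrivial (k : Type) {K : Type} [Field k] [Field K] [Algebra k K] (A B : K) : Prop :=
  ∀ γ : Cu A B, (∃ n : K, n ≠ 0 ∧ γ.norm = n ^ 2) →
    (∀ v : BSDFF.Place k K, InImageOver v.toCompletion γ) → IsSquare γ

/-- The binary quartic `a X ^ 4 + b X ^ 3 Z + c X ^ 2 Z ^ 2 + d X Z ^ 3 + e Z ^ 4`. -/
def quart {F : Type} [Field F] (a b c d e X Z : F) : F :=
  a * X ^ 4 + b * X ^ 3 * Z + c * X ^ 2 * Z ^ 2 + d * X * Z ^ 3 + e * Z ^ 4

/-- The invariant `I` of a binary quartic. -/
def quartI {F : Type} [Field F] (a b c d e : F) : F := 12 * a * e - 3 * b * d + c ^ 2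

/-- The invariant `J` of a binary quartic. -/
def quartJ {F : Type} [Field F] (a b c d e : F) : F :=
  72 * a * c * e + 9 * b * c * d - 27 * a * d ^ 2 - 27 * e * b ^ 2 - 2 * c ^ 3

/-- The curve `Y ^ 2 = g (X, Z)`, `g` the quartic with coefficients `a, b, c, d, e`, has a point. -/
def QuartPoint {F : Type} [Field F] (a b c d e : F) : Prop :=
  ∃ X Z Y : F, (X ≠ 0 ∨ Z ≠ 0) ∧ Y ^ 2 = quart a b c d e X Z

/-- The condition `QuartPoint` after the extension of fields `φ : K → F`. -/
def QuartPointOver {K F : Type} [Field K] [Field F] (φ : K →+* F) (a b c d e : K) : Prop :=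
  QuartPoint (φ a) (φ b) (φ c) (φ d) (φ e)

/-- `Sha(E / K)[2]` is trivial for `E : y ^ 2 = x ^ 3 + A x + B`: every binary quartic `g` over `K`
with the invariants `I = - 48 A`, `J = - 1728 B` of the `2`-coverings `Y ^ 2 = g (X, Z)` of `E`
which has a point over the completion at each closed point has a nontrivial zero over `K` (so it is
the trivial `2`-covering). -/
def ShaTwoTrivial (k : Type) {K : Type} [Field k] [Field K] [Algebra k K] (A B : K) : Prop :=
  ∀ a b c d e : K, quartI a b c d e = -48 * A → quartJ a b c d e = -1728 * B →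
    (∀ v : BSDFF.Place k K, QuartPointOver v.toCompletion a b c d e) →
    ∃ X Z : K, (X ≠ 0 ∨ Z ≠ 0) ∧ quart a b c d e X Z = 0

open Classical in
/-- `E : y ^ 2 = x ^ 3 + A x + B` is an elliptic curve over the function field `K` over `k` with
`j`-invariant `c₄ ^ 3 / Δ` not in `k`, its `2`-Selmer group over `K` is trivial, `E(K) = 2 E(K)` is
finite, the rank is `0` and `Sha(E / K)[2] = 0`. -/
structure TrivialSelmer (k : Type) {K : Type} [Field k] [Field K] [Algebra k K] (A B : K) :
    Prop where
  /-- nonzero discriminant -/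
  disc : (curve A B).Δ ≠ 0
  /-- the `j`-invariant is not in `k` -/
  j : ∀ c : k, (curve A B).c₄ ^ 3 ≠ algebraMap k K c * (curve A B).Δ
  /-- `Sel_2 (E / K) = 0` -/
  sel : SelTwoTrivial k A B
  /-- `E(K) = 2 E(K)` -/
  half : ∀ P : (curve A B).toAffine.Point, ∃ Q : (curve A B).toAffine.Point, P = Q + Q
  /-- `E(K)` is finite -/
  fin : Finite (curve A B).toAffine.Point
  /-- the rank of `E(K)` is `0` -/
  rank : BSDFF.algebraicRank (curve A B) = 0
  /-- `Sha(E / K)[2] = 0` -/
  sha : ShaTwoTrivial k A B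

theorem inImage_iff {F : Type} [Field F] {A B : F} (γ : Cu A B) : InImage γ ↔ SelF 1 γ := by
  unfold InImage SelF
  have h : ∀ x : F, (xsub x : Cu A B) = Cu.lin A B x 1 := fun x => rfl
  simp only [h, one_pow, mul_one]

theorem selTwoTrivial_iff {k : Type} [Field k] (A B : k[X]) :
    SelTwoTrivial k (cc A) (cc B) ↔ SelTriv A B := by
  unfold SelTwoTrivial SelTriv InImageOver
  simp only [inImage_iff]
  rfl

end Pool.Agent.BSDP
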